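import Mathlib
import Pool.Agent.H16.ORB.W

/-!
# MP_5182ad_lc, oracle barrier, row EXT: extension of a real partial world
-/

open Polynomial Finset Classical

namespace Pool.ORB

namespace EXTP

/-- The truth value to be stored at the address `(i + 1, z)`. -/
def trv (en : Enu) (O : Set (List Bool)) (i : ℕ) (z : List Bool) : Prop :=
  ∃ x a : List Bool, z = pair x a ∧ a.length = (al en i).eval x.length ∧ Tr en i O x

/-- The value of `ρ` at the address `e`. -/
noncomputable def rv (EE : Finset Ad) (ρ : FS {e // e ∈ EE} (List Bool)) (e : Ad) :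
    Option (List Bool × Bool) :=
  if h : ∃ wb : List Bool × Bool, ∃ he : e ∈ EE,
      ((⟨e, he⟩ : {e // e ∈ EE}), wb.1, wb.2) ∈ ρ then some h.choose else none

theorem rv_some {EE : Finset Ad} {ρ : FS {e // e ∈ EE} (List Bool)} {e : Ad}
    {wb : List Bool × Bool} (h : rv EE ρ e = some wb) :
    ∃ he : e ∈ EE, ((⟨e, he⟩ : {e // e ∈ EE}), wb.1, wb.2) ∈ ρ := by
  unfold rv at h
  split_ifs at h with h1
  have h2 := h1.choose_spec
  simp only [Option.some.injEq] at h
  rw [h] at h2
  exact h2

theorem rv_eq {EE : Finset Ad} {ρ : FS {e // e ∈ EE} (List Bool)} (hρ : Fn ρ)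
    (f : Fct {e // e ∈ EE} (List Bool)) (hf : f ∈ ρ) :
    rv EE ρ f.1.1 = some (f.2.1, f.2.2) := by
  have h1 : ∃ wb : List Bool × Bool, ∃ he : f.1.1 ∈ EE,
      ((⟨f.1.1, he⟩ : {e // e ∈ EE}), wb.1, wb.2) ∈ ρ := ⟨(f.2.1, f.2.2), f.1.2, hf⟩
  unfold rv
  rw [dif_pos h1]
  obtain ⟨he, h2⟩ := h1.choose_spec
  have h3 := hρ _ h2 _ hf rfl
  have h4 : h1.choose = (f.2.1, f.2.2) := by
    have h5 := congrArg (fun g : Fct {e // e ∈ EE} (List Bool) => (g.2.1, g.2.2)) h3
    exact h5
  rw [h4]

theorem rv_none {EE : Finset Ad} {ρ : FS {e // e ∈ EE} (List Bool)} {e : Ad}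
    (h : ∀ f ∈ ρ, f.1.1 ≠ e) : rv EE ρ e = none := by
  unfold rv
  rw [dif_neg]
  rintro ⟨wb, he, h1⟩
  exact h _ h1 rfl

/-- Some name of length `k` is not used by `ρ`. -/
theorem count {EE : Finset Ad} (ρ : FS {e // e ∈ EE} (List Bool)) (k : ℕ)
    (hρ : ρ.card < 2 ^ k) (g : Ad → List Bool → Prop)
    (hg : ∀ e a a', g e a → g e a' → a = a') :
    ∃ a : List Bool, a.length = k ∧ ∀ f ∈ ρ, ¬ g f.1.1 a := by
  by_contra hc
  have hc' : ∀ v : List.Vector Bool k, ∃ f, f ∈ ρ ∧ g f.1.1 v.1 := by
    intro v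
    by_contra hv
    apply hc
    refine ⟨v.1, v.2, ?_⟩
    intro f hf hgf
    exact hv ⟨f, hf, hgf⟩
  choose F hF using hc'
  have h1 : (univ : Finset (List.Vector Bool k)).card ≤ ρ.card := by
    apply Finset.card_le_card_of_injOn F
    · intro v _
      exact (hF v).1
    · intro v _ v' _ hvv
      have h2 := (hF v).2
      have h3 := (hF v').2
      rw [← hvv] at h3
      exact Subtype.ext (hg _ _ _ h2 h3)
  rw [Finset.card_univ, card_vector, Fintype.card_bool] at h1
  omega

/-- The map whose fixed point is the extension. -/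
noncomputable def Ph (en : Enu) (ω : Wo) (n τ : ℕ) (EE : Finset Ad)
    (ρ : FS {e // e ∈ EE} (List Bool)) (ν : Ad → List Bool) (B : Prop) (ω' : Wo) : Wo := fun e =>
  if lev e ≤ n then ω e
  else if e ∈ EE then
    (if (rv EE ρ e).isSome = true then rv EE ρ e
     else if e.1 = 0 then (if B then some (ν e, false) else none)
     else some (ν e, decide (trv en (orc ω') (e.1 - 1) e.2)))
  else if lev e ≤ τ then dfl e
  else if e.1 = 0 then none
  else some (List.replicate e.2.length false, decide (trv en (orc ω') (e.1 - 1) e.2))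

theorem AgO_mono {m n : ℕ} (h : m ≤ n) {O O' : Set (List Bool)} (hO : AgO n O O') :
    AgO m O O' := fun s hs => hO s (hs.trans h)

theorem trv_congr (hSTR : STRStmt) (hORW : ORWStmt) (hACC : ACCStmt) (en : Enu) (ω' ω'' : Wo)
    (e : Ad) (h : ∀ e', lev e' < lev e → ω' e' = ω'' e') :
    trv en (orc ω') (e.1 - 1) e.2 ↔ trv en (orc ω'') (e.1 - 1) e.2 := by
  have hl : e.2.length < lev e := by
    have := (hSTR.2.2.2.2 e).1
    omega
  have hA : Agr (lev e - 1) ω' ω'' := by
    intro e' he'
    apply h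
    omega
  have hO := hORW.2.2 _ _ _ hA
  unfold trv
  refine exists_congr fun x => exists_congr fun a => ?_
  constructor
  · rintro ⟨h1, h2, h3⟩
    refine ⟨h1, h2, ?_⟩
    have h4 : e.2.length = 2 * x.length + 1 + a.length := by rw [h1, hSTR.1]
    rw [← hACC.2.1 en (e.1 - 1) (orc ω') (orc ω'') x (AgO_mono (by omega) hO)]
    exact h3
  · rintro ⟨h1, h2, h3⟩
    refine ⟨h1, h2, ?_⟩
    have h4 : e.2.length = 2 * x.length + 1 + a.length := by rw [h1, hSTR.1]
    rw [hACC.2.1 en (e.1 - 1) (orc ω') (orc ω'') x (AgO_mono (by omega) hO)]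
    exact h3

theorem Ph_causal (hSTR : STRStmt) (hORW : ORWStmt) (hACC : ACCStmt) (en : Enu) (ω : Wo)
    (n τ : ℕ) (EE : Finset Ad) (ρ : FS {e // e ∈ EE} (List Bool)) (ν : Ad → List Bool) (B : Prop)
    (ω' ω'' : Wo) (e : Ad) (h : ∀ e', lev e' < lev e → ω' e' = ω'' e') :
    Ph en ω n τ EE ρ ν B ω' e = Ph en ω n τ EE ρ ν B ω'' e := by
  have h1 := trv_congr hSTR hORW hACC en ω' ω'' e h
  have h2 : decide (trv en (orc ω') (e.1 - 1) e.2) = decide (trv en (orc ω'') (e.1 - 1) e.2) := by
    exact decide_eq_decide.mpr h1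
  unfold Ph
  simp only [h2]

/-- The main construction. -/
theorem main (hFIX : FIXStmt) (hSTR : STRStmt) (hORW : ORWStmt) (hACC : ACCStmt)
    (hFIN : FINStmt) (hFAC : FACStmt)
    (en : Enu) (ω : Wo) (κ n τ : ℕ) (EE : Finset Ad) (hω : Legal en ω) (hn : n = 24 * (κ + 1))
    (hEE : ∀ e, e ∈ EE ↔ InE n τ e)
    (a : {e // e ∈ EE} → List.Vector Bool (4 * κ)) (ρ : FS {e // e ∈ EE} (List Bool))
    (V : {e // e ∈ EE} → List.Vector Bool (4 * κ) → Finset (List Bool))
    (hne : ∀ e : {e // e ∈ EE}, ∃ w, w ∈ V e (a e))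
    (hN3 : ∀ (e : {e // e ∈ EE}) (x : List.Vector Bool (4 * κ)) (w : List Bool),
      w ∈ V e x → w.length = e.1.2.length)
    (hρ : Fn ρ) (hv : Val V a ρ) (hc : ρ.card < 2 ^ κ) (B : Prop) :
    ∃ (ω' : Wo) (ν : Ad → List Bool), Ext en ω n τ EE ω' ∧ ρ ⊆ fac EE ω' ∧
      Val V a (fac EE ω') ∧
      ∀ y : List Bool, y.length = n → 
        ((rv EE ρ (0, pair (un n) y)).isSome = true ∧
          ω' (0, pair (un n) y) = rv EE ρ (0, pair (un n) y)) ∨
        (¬ (rv EE ρ (0, pair (un n) y)).isSome = true ∧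
          ω' (0, pair (un n) y) = if B then some (ν (0, pair (un n) y), false) else none) := by
  -- the new needles
  choose ν0 hν0 using hne
  let ν : Ad → List Bool := fun e => if h : e ∈ EE then ν0 ⟨e, h⟩ else []
  have hν : ∀ e : {e // e ∈ EE}, ν e.1 ∈ V e (a e) := by
    intro e
    have : ν e.1 = ν0 e := dif_pos e.2
    rw [this]
    exact hν0 e
  obtain ⟨ω', hfix⟩ := hFIX Ad (Option (List Bool × Bool)) lev (Ph en ω n τ EE ρ ν B) ⟨none⟩
    (fun ω' ω'' e h => Ph_causal hSTR hORW hACC en ω n τ EE ρ ν B ω' ω'' e h)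
  -- values
  have hlow : ∀ e, lev e ≤ n → ω' e = ω e := by
    intro e he
    rw [← hfix]
    unfold Ph
    rw [if_pos he]
  have hEn : ∀ e ∈ EE, n < lev e := fun e he => hFIN.2.2 n τ e ((hEE e).1 he)
  have hrv : ∀ e ∈ EE, (rv EE ρ e).isSome = true → ω' e = rv EE ρ e := by
    intro e he h
    have h1 := hEn e he
    rw [← hfix]
    unfold Ph
    rw [if_neg (by omega), if_pos he, if_pos h]
  have hrow : ∀ e ∈ EE, ¬ (rv EE ρ e).isSome = true → e.1 = 0 →
      ω' e = if B then some (ν e, false) else none := by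
    intro e he h h0
    have h1 := hEn e he
    rw [← hfix]
    unfold Ph
    rw [if_neg (by omega), if_pos he, if_neg h, if_pos h0]
  have hact : ∀ e ∈ EE, ¬ (rv EE ρ e).isSome = true → e.1 ≠ 0 →
      ω' e = some (ν e, decide (trv en (orc ω') (e.1 - 1) e.2)) := by
    intro e he h h0
    have h1 := hEn e he
    conv_lhs => rw [← hfix]
    unfold Ph
    rw [if_neg (by omega), if_pos he, if_neg h, if_neg h0]
  have hdf : ∀ e, e ∉ EE → n < lev e → lev e ≤ τ → ω' e = dfl e := by
    intro e he h1 h2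
    rw [← hfix]
    unfold Ph
    rw [if_neg (by omega), if_neg he, if_pos h2]
  have hhi0 : ∀ e, e ∉ EE → n < lev e → τ < lev e → e.1 = 0 → ω' e = none := by
    intro e he h1 h2 h0
    rw [← hfix]
    unfold Ph
    rw [if_neg (by omega), if_neg he, if_neg (by omega), if_pos h0]
  have hhi : ∀ e, e ∉ EE → n < lev e → τ < lev e → e.1 ≠ 0 →
      ω' e = some (List.replicate e.2.length false,
        decide (trv en (orc ω') (e.1 - 1) e.2)) := by
    intro e he h1 h2 h0
    conv_lhs => rw [← hfix]
    unfold Ph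
    rw [if_neg (by omega), if_neg he, if_neg (by omega), if_neg h0]
  -- validity in EE
  have hval : ∀ (e : {e // e ∈ EE}) (w : List Bool) (b : Bool), ω' e.1 = some (w, b) →
      w ∈ V e (a e) := by
    intro e w b h
    by_cases h1 : (rv EE ρ e.1).isSome = true
    · rw [hrv e.1 e.2 h1] at h
      obtain ⟨he, h2⟩ := rv_some h
      exact hv (e, w, b) h2
    · by_cases h0 : e.1.1 = 0
      · rw [hrow e.1 e.2 h1 h0] at h
        by_cases hB : B
        · rw [if_pos hB] at h
          simp only [Option.some.injEq, Prod.mk.injEq] at h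
          rw [← h.1]
          exact hν e
        · rw [if_neg hB] at h
          exact absurd h (by simp)
      · rw [hact e.1 e.2 h1 h0] at h
        simp only [Option.some.injEq, Prod.mk.injEq] at h
        rw [← h.1]
        exact hν e
  have hAgr : Agr n ω ω' := fun e he => (hlow e he).symm
  have hpn : ∀ (i : ℕ) (z : List Bool), ((i + 1, z) : Ad).1 ≠ 0 := fun i z => by simp
  have hLegal : Legal en ω' := by
    refine ⟨?_, ?_, ?_⟩
    · -- wf
      intro e w b h
      by_cases h1 : lev e ≤ n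
      · rw [hlow e h1] at h
        exact hω.wf e w b h
      · by_cases h2 : e ∈ EE
        · exact hN3 ⟨e, h2⟩ (a ⟨e, h2⟩) w (hval ⟨e, h2⟩ w b h)
        · by_cases h3 : lev e ≤ τ
          · rw [hdf e h2 (by omega) h3] at h
            unfold dfl at h
            split_ifs at h with h4
            simp only [Option.some.injEq, Prod.mk.injEq] at h
            rw [← h.1, List.length_replicate]
          · by_cases h0 : e.1 = 0
            · rw [hhi0 e h2 (by omega) (by omega) h0] at h
              exact absurd h (by simp)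
            · rw [hhi e h2 (by omega) (by omega) h0] at h
              simp only [Option.some.injEq, Prod.mk.injEq] at h
              rw [← h.1, List.length_replicate]
    · -- tot
      intro i z
      have h0 := hpn i z
      by_cases h1 : lev (i + 1, z) ≤ n
      · rw [hlow _ h1]
        exact hω.tot i z
      · by_cases h2 : ((i + 1, z) : Ad) ∈ EE
        · by_cases h4 : (rv EE ρ (i + 1, z)).isSome = true
          · rw [hrv _ h2 h4]
            intro h5
            rw [h5] at h4
            exact absurd h4 (by simp)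
          · rw [hact _ h2 h4 h0]
            simp
        · by_cases h3 : lev (i + 1, z) ≤ τ
          · rw [hdf _ h2 (by omega) h3]
            unfold dfl
            rw [if_neg h0]
            simp
          · rw [hhi _ h2 (by omega) (by omega) h0]
            simp
    · -- leg
      intro i m
      have hA1 := (hACC.2.2 en i m).1
      have hA2 := (hACC.2.2 en i m).2
      set A := (al en i).eval m with hA
      set L := i + 1 + 3 * (2 * m + 1 + A) + 3 with hL
      have hlev : ∀ x y : List Bool, x.length = m → y.length = A →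
          lev (i + 1, pair x y) = L := by
        intro x y hx hy
        rw [(hSTR.2.2.2.2 (i + 1, pair x y)).2.2.2 (hpn i _)]
        show i + 1 + 3 * (pair x y).length + 3 = L
        rw [hSTR.1, hx, hy]
      by_cases h1 : L ≤ n
      · obtain ⟨y, hy1, hy2⟩ := hω.leg i m
        refine ⟨y, hy1, ?_⟩
        intro x hx
        rw [hlow _ (by rw [hlev x y hx hy1]; exact h1), hy2 x hx]
        exact hACC.2.1 en i (orc ω) (orc ω') x
          (AgO_mono (by rw [hx]; omega) (hORW.2.2 n ω ω' hAgr))
      · have hAκ : κ ≤ A := by omega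
        obtain ⟨y, hy1, hy2⟩ := count ρ A
          (lt_of_lt_of_le hc (Nat.pow_le_pow_right (by norm_num) hAκ))
          (fun e y => ∃ x : List Bool, x.length = m ∧ e = (i + 1, pair x y))
          (by
            rintro e y y' ⟨x, hx, h2⟩ ⟨x', hx', h3⟩
            have h4 : (i + 1, pair x y) = ((i + 1, pair x' y') : Ad) := by rw [← h2, ← h3]
            have h5 : pair x y = pair x' y' := (Prod.mk.inj h4).2
            exact (hSTR.2.1 _ _ _ _ h5).2)
        refine ⟨y, hy1, ?_⟩
        intro x hx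
        have h0 := hpn i (pair x y)
        have hl := hlev x y hx hy1
        have hr : ¬ (rv EE ρ (i + 1, pair x y)).isSome = true := by
          rw [rv_none]
          · simp
          · intro f hf hfe
            exact hy2 f hf ⟨x, hx, hfe⟩
        have hT : trv en (orc ω') (((i + 1, pair x y) : Ad).1 - 1)
            ((i + 1, pair x y) : Ad).2 ↔ Tr en i (orc ω') x := by
          show trv en (orc ω') (i + 1 - 1) (pair x y) ↔ Tr en i (orc ω') x
          rw [Nat.add_sub_cancel]
          constructor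
          · rintro ⟨x', y', h2, h3, h4⟩
            rw [(hSTR.2.1 _ _ _ _ h2).1]
            exact h4
          · intro h
            exact ⟨x, y, rfl, by rw [hx]; exact hy1, h⟩
        have hgen : ∀ w : List Bool, ω' (i + 1, pair x y) = some (w,
            decide (trv en (orc ω') (((i + 1, pair x y) : Ad).1 - 1)
            ((i + 1, pair x y) : Ad).2)) →
            ((∃ w, ω' (i + 1, pair x y) = some (w, true)) ↔ Tr en i (orc ω') x) := by
          intro w hw
          rw [← hT, hw]
          constructor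
          · rintro ⟨w', h2⟩
            simp only [Option.some.injEq, Prod.mk.injEq] at h2
            exact of_decide_eq_true h2.2
          · intro h2
            exact ⟨w, by rw [decide_eq_true h2]⟩
        by_cases h2 : ((i + 1, pair x y) : Ad) ∈ EE
        · exact hgen _ (hact _ h2 hr h0)
        · have h3 : τ < lev (i + 1, pair x y) := by
            by_contra h4
            apply h2
            rw [hEE]
            right
            refine ⟨h0, ?_, by omega, by omega⟩
            show i + 1 ≤ (pair x y).length + 1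
            rw [hSTR.1, hy1]
            omega
          exact hgen _ (hhi _ h2 (by omega) h3 h0)
  refine ⟨ω', ν, ⟨hLegal, hAgr, hdf⟩, ?_, ?_, ?_⟩
  · intro f hf
    rw [hFAC.1]
    have h1 := rv_eq hρ f hf
    rw [hrv f.1.1 f.1.2 (by rw [h1]; rfl), h1]
  · intro f hf
    rw [hFAC.1] at hf
    exact hval f.1 f.2.1 f.2.2 hf
  · intro y hy
    have hmem : ((0, pair (un n) y) : Ad) ∈ EE := by
      rw [hEE]
      left
      exact ⟨rfl, y, hy, rfl⟩
    by_cases h1 : (rv EE ρ (0, pair (un n) y)).isSome = true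
    · left
      exact ⟨h1, hrv _ hmem h1⟩
    · right
      exact ⟨h1, hrow _ hmem h1 rfl⟩

end EXTP

/-- **EXT.** -/
theorem ext (hFIX : FIXStmt) (hSTR : STRStmt) (hORW : ORWStmt) (hACC : ACCStmt)
    (hFIN : FINStmt) (hNDL : NDLStmt) (hFAC : FACStmt) : EXTStmt := by
  intro en ω κ n τ EE hω hn hEE a ρ hρ hv hc
  have hlen : ∀ e ∈ EE, 6 * κ ≤ e.2.length := by
    intro e he
    have := hFIN.2.1 n τ κ e hn ((hEE e).1 he)
    omega
  obtain ⟨hN1, hN2, hN3⟩ := hNDL EE κ hlen
  have hne : ∀ e : {e // e ∈ EE}, ∃ w, w ∈ ndl (4 * κ) EE e (a e) := by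
    intro e
    have h1 : 0 < (ndl (4 * κ) EE e (a e)).card :=
      lt_of_lt_of_le (by positivity) (hN2 e (a e))
    exact Finset.card_pos.1 h1
  constructor
  · obtain ⟨ω', ν, h1, h2, h3, h4⟩ :=
      EXTP.main hFIX hSTR hORW hACC hFIN hFAC en ω κ n τ EE hω hn hEE a ρ
        (ndl (4 * κ) EE) hne hN3 hρ hv hc False
    refine ⟨ω', h1, h2, h3, ?_⟩
    obtain ⟨y, hy1, hy2⟩ := EXTP.count ρ n
      (lt_of_lt_of_le hc (Nat.pow_le_pow_right (by norm_num) (by omega)))
      (fun e y => e = (0, pair (un n) y))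
      (by
        intro e y y' h5 h6
        have h7 : (0, pair (un n) y) = ((0, pair (un n) y') : Ad) := by rw [← h5, ← h6]
        exact (hSTR.2.1 _ _ _ _ (Prod.mk.inj h7).2).2)
    refine ⟨y, hy1, ?_⟩
    rcases h4 y hy1 with ⟨h5, h6⟩ | ⟨h5, h6⟩
    · exfalso
      rw [EXTP.rv_none] at h5
      · exact absurd h5 (by simp)
      · intro f hf hfe
        exact hy2 f hf hfe
    · rw [h6, if_neg (by simp)]
  · obtain ⟨ω', ν, h1, h2, h3, h4⟩ :=
      EXTP.main hFIX hSTR hORW hACC hFIN hFAC en ω κ n τ EE hω hn hEE a ρ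
        (ndl (4 * κ) EE) hne hN3 hρ hv hc True
    refine ⟨ω', h1, h2, h3, ?_⟩
    intro y hy h5
    rcases h4 y hy with ⟨h6, h7⟩ | ⟨h6, h7⟩
    · rw [← h7, h5] at h6
      exact absurd h6 (by simp)
    · rw [h7, if_pos trivial] at h5
      exact absurd h5 (by simp)

end Pool.ORB
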