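import Mathlib
import Pool.Agent.H16.ORB.W

/-!
# MP_5182ad_lc, oracle barrier, row STG: one stage
-/

open Polynomial Finset Classical

namespace Pool.ORB

namespace STGP

theorem un_length (n : ℕ) : (un n).length = n := by
  unfold un
  rw [List.length_replicate]

/-- The stage for an abstract family of needle sets. -/
theorem main (hCORE : CoreStmt) (hSTR : STRStmt) (hORW : ORWStmt) (hACC : ACCStmt)
    (hFAC : FACStmt) (hQRY : QRYStmt)
    (en : Enu) (M : OM) (P r : ℕ[X]) (ω : Wo) (ℓ κ n m len time τ p : ℕ) (EE : Finset Ad)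
    (hℓ : ℓ ≤ n) (hm : m = r.eval n) (hlen : len = 2 * n + 3 * m + 2)
    (htime : time = P.eval len) (hτ : τ = len + time) (hp : p = time + m + 1)
    (h16 : 16 * Hp p * (Tp p) ^ 2 ≤ 2 ^ κ) (hSp : Sp p < 2 ^ κ)
    (V : {e // e ∈ EE} → List.Vector Bool (4 * κ) → Finset (List Bool))
    (hdisj : ∀ (e : {e // e ∈ EE}) (x y : List.Vector Bool (4 * κ)), x ≠ y →
      Disjoint (V e x) (V e y))
    (hbig : ∀ (e : {e // e ∈ EE}) (x : List.Vector Bool (4 * κ)), (2 ^ κ) ^ 2 ≤ (V e x).card)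
    (hext : ∀ (a : {e // e ∈ EE} → List.Vector Bool (4 * κ)) (ρ : FS {e // e ∈ EE} (List Bool)),
      Fn ρ → Val V a ρ → ρ.card < 2 ^ κ →
      (∃ ω' : Wo, Ext en ω n τ EE ω' ∧ ρ ⊆ fac EE ω' ∧ Val V a (fac EE ω') ∧
        ∃ y : List Bool, y.length = n ∧ ω' (0, pair (un n) y) = none) ∧
      (∃ ω' : Wo, Ext en ω n τ EE ω' ∧ ρ ⊆ fac EE ω' ∧ Val V a (fac EE ω') ∧
        ∀ y : List Bool, y.length = n → ω' (0, pair (un n) y) ≠ none)) :
    ∃ (ω' : Wo) (ℓ' : ℕ), Legal en ω' ∧ ℓ < ℓ' ∧ Agr ℓ ω ω' ∧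
      ∀ ω'' : Wo, Legal en ω'' → Agr ℓ' ω' ω'' → Fail M P r (orc ω'') := by
  have hinl : ∀ y z : List Bool, y.length = m → z.length = m →
      (pair (un n) (pair y z)).length = len := by
    intro y z hy hz
    rw [hSTR.1, hSTR.1, un_length, hy, hz, hlen]
    ring
  choose Q hQ1 hQ2 using fun (x : List Bool) (g : {e // e ∈ EE} → List Bool → Option Bool) =>
    hQRY ω n EE M P x g
  let D : Dat {e // e ∈ EE} (List Bool) (List.Vector Bool m) (List.Vector Bool (4 * κ)) :=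
    { p := p
      q := 2 ^ κ
      hp := by omega
      hS := by
        rw [card_vector, Fintype.card_bool]
        exact Nat.pow_le_pow_right (by norm_num) (by omega)
      hq := h16
      hW := by
        rw [card_vector, Fintype.card_bool, ← pow_mul]
        congr 1
        ring
      V := V
      disj := hdisj
      big := hbig
      R := fun y z g => decide (Acc M P (orcg ω n EE g) (pair (un n) (pair y.1 z.1)))
      Q := fun y z g => Q (pair (un n) (pair y.1 z.1)) g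
      card_le := by
        intro y z g
        refine (hQ1 _ g).trans ?_
        rw [hinl y.1 z.1 y.2 z.2, ← htime]
        omega
      loc := by
        intro y z g g' h
        exact decide_eq_decide.mpr (hQ2 _ g g' h) }
  -- the two families
  let Yes : ({e // e ∈ EE} → List.Vector Bool (4 * κ)) → Set (FS {e // e ∈ EE} (List Bool)) :=
    fun a => {U | ∃ ω' : Wo, Ext en ω n τ EE ω' ∧ U = fac EE ω' ∧ Val V a (fac EE ω') ∧
      ∃ y : List Bool, y.length = n ∧ ω' (0, pair (un n) y) = none}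
  let No : ({e // e ∈ EE} → List.Vector Bool (4 * κ)) → Set (FS {e // e ∈ EE} (List Bool)) :=
    fun a => {U | ∃ ω' : Wo, Ext en ω n τ EE ω' ∧ U = fac EE ω' ∧ Val V a (fac EE ω') ∧
      ∀ y : List Bool, y.length = n → ω' (0, pair (un n) y) ≠ none}
  have hcore := hCORE D Yes No
    (by
      rintro a U ⟨ω', h1, h2, h3, h4⟩
      rw [h2]
      exact ⟨hFAC.2.1 EE ω', h3⟩)
    (by
      rintro a U ⟨ω', h1, h2, h3, h4⟩
      rw [h2]
      exact ⟨hFAC.2.1 EE ω', h3⟩)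
    (by
      intro a ρ h1 h2 h3
      have h3' : ρ.card ≤ Sp p := h3
      obtain ⟨⟨ω1, g1, g2, g3, g4⟩, ⟨ω2, f1, f2, f3, f4⟩⟩ := hext a ρ h1 h2 (by omega)
      exact ⟨⟨fac EE ω1, ⟨ω1, g1, rfl, g3, g4⟩, g2⟩, ⟨fac EE ω2, ⟨ω2, f1, rfl, f3, f4⟩, f2⟩⟩)
  -- level of the rows
  have hrow : ∀ y : List Bool, y.length = n →
      lev (0, pair (un n) y) = lev (0, pair (un n) (un n)) := by
    intro y hy
    rw [(hSTR.2.2.2.2 (0, pair (un n) y)).2.2.1 rfl,
      (hSTR.2.2.2.2 (0, pair (un n) (un n))).2.2.1 rfl]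
    show 3 * (pair (un n) y).length + 2 = 3 * (pair (un n) (un n)).length + 2
    rw [hSTR.1, hSTR.1, un_length, hy]
  -- agreement of the runs
  have hagree : ∀ (ω' ω'' : Wo), Ext en ω n τ EE ω' → Agr τ ω' ω'' →
      ∀ y z : List Bool, y.length = m → z.length = m →
      (Acc M P (orcg ω n EE (ans (fac EE ω'))) (pair (un n) (pair y z)) ↔
        Acc M P (orc ω'') (pair (un n) (pair y z))) := by
    intro ω' ω'' hE hA y z hy hz
    have h1 : (pair (un n) (pair y z)).length +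
        P.eval (pair (un n) (pair y z)).length = τ := by
      rw [hinl y z hy hz, ← htime, hτ]
    rw [hACC.1 M P _ (orc ω') (pair (un n) (pair y z)) (by
      rw [h1]
      exact hFAC.2.2.2 en ω n τ EE ω' hE)]
    apply hACC.1
    rw [h1]
    exact hORW.2.2 τ ω' ω'' hA
  have hmono : ∀ (k l : ℕ) (ω' ω'' : Wo), k ≤ l → Agr l ω' ω'' → Agr k ω' ω'' :=
    fun k l ω' ω'' h h1 e he => h1 e (he.trans h)
  obtain ⟨a, ⟨U, ⟨ω', h1, h2, h3, h4⟩, h5⟩ | ⟨U, ⟨ω', h1, h2, h3, h4⟩, h5⟩⟩ := hcore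
  · refine ⟨ω', max τ (lev (0, pair (un n) (un n))) + ℓ + 1, h1.1, by omega,
      hmono ℓ n _ _ hℓ h1.2.1, ?_⟩
    intro ω'' hL hA
    have hAτ : Agr τ ω' ω'' := hmono _ _ _ _ (by
      have := le_max_left τ (lev (0, pair (un n) (un n)))
      omega) hA
    refine ⟨un n, Or.inl ⟨?_, ?_⟩⟩
    · obtain ⟨y, hy1, hy2⟩ := h4
      refine ⟨y, by rw [hy1, un_length], ?_⟩
      intro w hw hmem
      rw [hORW.2.1 ω'' (pair (un n) y) w hw] at hmem
      obtain ⟨b, hb⟩ := hmem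
      have h6 : ω' (0, pair (un n) y) = ω'' (0, pair (un n) y) := by
        apply hA
        rw [hrow y hy1]
        have := le_max_right τ (lev (0, pair (un n) (un n)))
        omega
      rw [← h6, hy2] at hb
      exact absurd hb (by simp)
    · intro y hy
      rw [un_length, ← hm] at hy
      obtain ⟨z, hz⟩ := h5 ⟨y, hy⟩
      refine ⟨z.1, by rw [un_length, ← hm]; exact z.2, ?_⟩
      rw [← hagree ω' ω'' h1 hAτ y z.1 hy z.2]
      have h7 : decide (Acc M P (orcg ω n EE (ans U)) (pair (un n) (pair y z.1))) = false := hz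
      rw [h2] at h7
      exact of_decide_eq_false h7
  · refine ⟨ω', max τ (lev (0, pair (un n) (un n))) + ℓ + 1, h1.1, by omega,
      hmono ℓ n _ _ hℓ h1.2.1, ?_⟩
    intro ω'' hL hA
    have hAτ : Agr τ ω' ω'' := hmono _ _ _ _ (by
      have := le_max_left τ (lev (0, pair (un n) (un n)))
      omega) hA
    refine ⟨un n, Or.inr ⟨?_, ?_⟩⟩
    · rintro ⟨y, hy1, hy2⟩
      rw [un_length] at hy1
      have h6 : ω' (0, pair (un n) y) = ω'' (0, pair (un n) y) := by
        apply hA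
        rw [hrow y hy1]
        have := le_max_right τ (lev (0, pair (un n) (un n)))
        omega
      obtain ⟨⟨w, b⟩, hwb⟩ := Option.ne_none_iff_exists'.1 (h4 y hy1)
      rw [h6] at hwb
      have hw : w.length = (pair (un n) y).length := hL.wf _ _ _ hwb
      apply hy2 w hw
      rw [hORW.2.1 ω'' (pair (un n) y) w hw]
      exact ⟨b, hwb⟩
    · intro z hz
      rw [un_length, ← hm] at hz
      obtain ⟨y, hy⟩ := h5 ⟨z, hz⟩
      refine ⟨y.1, by rw [un_length, ← hm]; exact y.2, ?_⟩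
      rw [← hagree ω' ω'' h1 hAτ y.1 z y.2 hz]
      have h7 : decide (Acc M P (orcg ω n EE (ans U)) (pair (un n) (pair y.1 z))) = true := hy
      rw [h2] at h7
      exact of_decide_eq_true h7

end STGP

/-- **STG.** -/
theorem stg (hCORE : CoreStmt) (hSTR : STRStmt) (hORW : ORWStmt) (hACC : ACCStmt)
    (hNUM : NUMStmt) (hFIN : FINStmt) (hNDL : NDLStmt) (hFAC : FACStmt) (hQRY : QRYStmt)
    (hEXT : EXTStmt) : STGStmt := by
  intro en M P r ω ℓ hω
  obtain ⟨κ, hκ, h16, hSp⟩ := hNUM P r ℓ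
  obtain ⟨EE, hEE⟩ := hFIN.1 (24 * (κ + 1))
    ((2 * (24 * (κ + 1)) + 3 * r.eval (24 * (κ + 1)) + 2) +
      P.eval (2 * (24 * (κ + 1)) + 3 * r.eval (24 * (κ + 1)) + 2))
  have hlen : ∀ e ∈ EE, 6 * κ ≤ e.2.length := by
    intro e he
    have := hFIN.2.1 (24 * (κ + 1)) _ κ e rfl ((hEE e).1 he)
    omega
  obtain ⟨hN1, hN2, hN3⟩ := hNDL EE κ hlen
  exact STGP.main hCORE hSTR hORW hACC hFAC hQRY en M P r ω ℓ κ (24 * (κ + 1))
    (r.eval (24 * (κ + 1))) (2 * (24 * (κ + 1)) + 3 * r.eval (24 * (κ + 1)) + 2)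
    (P.eval (2 * (24 * (κ + 1)) + 3 * r.eval (24 * (κ + 1)) + 2)) _ _ EE
    (by omega) rfl rfl rfl rfl rfl h16 hSp (ndl (4 * κ) EE) hN1 hN2
    (fun a ρ h1 h2 h3 => hEXT en ω κ (24 * (κ + 1)) _ EE hω rfl hEE a ρ h1 h2 h3)

end Pool.ORB
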